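import Mathlib

/-!
# Topologies induced by interval orders and by semiorders

A topology is induced by an interval order if and only if it has a subbasis `𝓛 ∪ 𝓤` which consists of
two *linked* nests; it is induced by a semiorder if and only if the two nests can be chosen such that
moreover `L ∩ U = ∅` or `L ∪ U = X` for all `L ∈ 𝓛`, `U ∈ 𝓤`.

Two nests are linked if there are points `p L` for `L ∈ 𝓛` and `q U` for `U ∈ 𝓤` with
`p L ∈ U ↔ q U ∈ L`, such that for every point `x` there is exactly one `L ∈ 𝓛` for which `x` and `p L`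
belong to the same members of `𝓤`, and this `L` does not contain `x`; and similarly with the roles of
`𝓛` and `𝓤` exchanged.

For `T₁` topologies both questions coincide: an interval order which induces a `T₁` topology is a
semiorder.
-/

set_option autoImplicit false

namespace Pool.Agent.Results.MP_d11cf5_gt.LinkedNests

open Set Topology

universe u

variable {X : Type u}

/-- Interval orders. -/
def IsIntervalOrder (r : X → X → Prop) : Prop :=
  (∀ x, ¬ r x x) ∧ ∀ x y z w, r x y → r z w → r x w ∨ r z y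

/-- Semiorders. -/
def IsSemiorder (r : X → X → Prop) : Prop :=
  IsIntervalOrder r ∧ ∀ x y z, r x y → r y z → ∀ w, r x w ∨ r w z

/-- `U_R(x) = {a : x R a}`. -/
def Up (r : X → X → Prop) (x : X) : Set X := {a | r x a}

/-- `L_R(x) = {b : b R x}`. -/
def Lo (r : X → X → Prop) (x : X) : Set X := {b | r b x}

/-- The topology `τ_R` with the subbasis `{∅, X} ∪ {U_R(t)} ∪ {L_R(y)}`. -/
@[reducible] def inducedTop (r : X → X → Prop) : TopologicalSpace X :=
  TopologicalSpace.generateFrom ({∅, univ} ∪ range (Up r) ∪ range (Lo r))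

/-- A nest: a family of sets which is totally ordered by inclusion. -/
def Nest (𝓐 : Set (Set X)) : Prop := ∀ A ∈ 𝓐, ∀ B ∈ 𝓐, A ⊆ B ∨ B ⊆ A

/-- Two points belong to the same members of the family `𝓐`. -/
def Same (𝓐 : Set (Set X)) (x y : X) : Prop := ∀ A ∈ 𝓐, (x ∈ A ↔ y ∈ A)

/-- Two linked nests. -/
def Linked (𝓛 𝓤 : Set (Set X)) : Prop :=
  Nest 𝓛 ∧ Nest 𝓤 ∧ ∃ p q : Set X → X,
    (∀ L ∈ 𝓛, ∀ U ∈ 𝓤, (p L ∈ U ↔ q U ∈ L)) ∧
    (∀ x, ∃! L, L ∈ 𝓛 ∧ Same 𝓤 x (p L)) ∧ (∀ x, ∃! U, U ∈ 𝓤 ∧ Same 𝓛 x (q U)) ∧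
    (∀ x, ∀ L ∈ 𝓛, Same 𝓤 x (p L) → x ∉ L) ∧ (∀ x, ∀ U ∈ 𝓤, Same 𝓛 x (q U) → x ∉ U)

theorem induced_eq (r : X → X → Prop) :
    inducedTop r = TopologicalSpace.generateFrom (range (Lo r) ∪ range (Up r)) := by
  apply le_antisymm
  · refine le_generateFrom fun s hs => ?_
    apply TopologicalSpace.isOpen_generateFrom_of_mem
    rcases hs with hs | hs
    · exact Or.inr hs
    · exact Or.inl (Or.inr hs)
  · refine le_generateFrom fun s hs => ?_
    let _ := TopologicalSpace.generateFrom (range (Lo r) ∪ range (Up r))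
    rcases hs with (hs | hs) | hs
    · rcases hs with rfl | hs
      · exact isOpen_empty
      · rw [mem_singleton_iff.1 hs]; exact isOpen_univ
    · exact TopologicalSpace.isOpen_generateFrom_of_mem (Or.inr hs)
    · exact TopologicalSpace.isOpen_generateFrom_of_mem (Or.inl hs)

/-- The canonical nests of an interval order are linked. -/
theorem linked_of_order [Nonempty X] {r : X → X → Prop} (h : IsIntervalOrder r) :
    Linked (range (Lo r)) (range (Up r)) := by
  classical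
  obtain ⟨hi, hf⟩ := h
  refine ⟨?_, ?_, ?_⟩
  · rintro _ ⟨x, rfl⟩ _ ⟨y, rfl⟩
    by_contra hc
    rw [not_or, not_subset, not_subset] at hc
    obtain ⟨⟨a, ha, ha'⟩, b, hb, hb'⟩ := hc
    rcases hf _ _ _ _ ha hb with h1 | h1
    · exact ha' h1
    · exact hb' h1
  · rintro _ ⟨x, rfl⟩ _ ⟨y, rfl⟩
    by_contra hc
    rw [not_or, not_subset, not_subset] at hc
    obtain ⟨⟨a, ha, ha'⟩, b, hb, hb'⟩ := hc
    rcases hf _ _ _ _ ha hb with h1 | h1
    · exact hb' h1
    · exact ha' h1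
  · obtain ⟨x₀⟩ := ‹Nonempty X›
    let p : Set X → X := fun L => if h : ∃ x, Lo r x = L then h.choose else x₀
    let q : Set X → X := fun U => if h : ∃ x, Up r x = U then h.choose else x₀
    have hp : ∀ x, Lo r (p (Lo r x)) = Lo r x := by
      intro x
      have h : ∃ y, Lo r y = Lo r x := ⟨x, rfl⟩
      simp only [p, dif_pos h]
      exact h.choose_spec
    have hq : ∀ x, Up r (q (Up r x)) = Up r x := by
      intro x
      have h : ∃ y, Up r y = Up r x := ⟨x, rfl⟩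
      simp only [q, dif_pos h]
      exact h.choose_spec
    have sameU : ∀ x y, Same (range (Up r)) x y ↔ Lo r x = Lo r y := by
      intro x y
      constructor
      · intro h
        ext c
        exact h (Up r c) ⟨c, rfl⟩
      · rintro h _ ⟨c, rfl⟩
        exact Set.ext_iff.1 h c
    have sameL : ∀ x y, Same (range (Lo r)) x y ↔ Up r x = Up r y := by
      intro x y
      constructor
      · intro h
        ext c
        exact h (Lo r c) ⟨c, rfl⟩
      · rintro h _ ⟨c, rfl⟩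
        exact Set.ext_iff.1 h c
    refine ⟨p, q, ?_, ?_, ?_, ?_, ?_⟩
    · rintro _ ⟨x, rfl⟩ _ ⟨y, rfl⟩
      calc p (Lo r x) ∈ Up r y ↔ y ∈ Lo r (p (Lo r x)) := Iff.rfl
        _ ↔ y ∈ Lo r x := by rw [hp]
        _ ↔ x ∈ Up r y := Iff.rfl
        _ ↔ x ∈ Up r (q (Up r y)) := by rw [hq]
        _ ↔ q (Up r y) ∈ Lo r x := Iff.rfl
    · intro x
      refine ⟨Lo r x, ⟨⟨x, rfl⟩, (sameU _ _).2 (hp x).symm⟩, ?_⟩
      rintro _ ⟨⟨y, rfl⟩, hy⟩
      rw [sameU, hp] at hy
      exact hy.symm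
    · intro x
      refine ⟨Up r x, ⟨⟨x, rfl⟩, (sameL _ _).2 (hq x).symm⟩, ?_⟩
      rintro _ ⟨⟨y, rfl⟩, hy⟩
      rw [sameL, hq] at hy
      exact hy.symm
    · rintro x _ ⟨y, rfl⟩ hy
      rw [sameU, hp] at hy
      rw [← hy]
      exact hi x
    · rintro x _ ⟨y, rfl⟩ hy
      rw [sameL, hq] at hy
      rw [← hy]
      exact hi x

/-- Two linked nests are the canonical nests of an interval order. -/
theorem order_of_linked {𝓛 𝓤 : Set (Set X)} (h : Linked 𝓛 𝓤) :
    ∃ r : X → X → Prop, IsIntervalOrder r ∧ range (Lo r) = 𝓛 ∧ range (Up r) = 𝓤 := by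
  obtain ⟨nL, nU, p, q, hpq, hL, hU, hLn, hUn⟩ := h
  choose ℓ hℓ using fun x => (hL x).exists
  choose μ hμ using fun x => (hU x).exists
  -- `a ≺ b` if `a ∈ ℓ b`, which is equivalent to `b ∈ μ a`
  have key : ∀ a b, a ∈ ℓ b ↔ b ∈ μ a := by
    intro a b
    rw [(hμ a).2 _ (hℓ b).1, ← hpq _ (hℓ b).1 _ (hμ a).1, ← (hℓ b).2 _ (hμ a).1]
  have hLo : ∀ b, Lo (fun a b => a ∈ ℓ b) b = ℓ b := fun b => rfl
  have hUp : ∀ a, Up (fun a b => a ∈ ℓ b) a = μ a := by
    intro a
    ext b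
    exact key a b
  refine ⟨fun a b => a ∈ ℓ b, ⟨fun x => hLn x _ (hℓ x).1 (hℓ x).2, ?_⟩, ?_, ?_⟩
  · intro x y z w hx hz
    rcases nL _ (hℓ y).1 _ (hℓ w).1 with h1 | h1
    · exact Or.inl (h1 hx)
    · exact Or.inr (h1 hz)
  · ext L
    constructor
    · rintro ⟨b, rfl⟩
      exact (hℓ b).1
    · intro h
      refine ⟨p L, ?_⟩
      rw [hLo]
      exact (hL (p L)).unique (hℓ (p L)) ⟨h, fun A _ => Iff.rfl⟩
  · ext U
    constructor
    · rintro ⟨a, rfl⟩
      rw [hUp]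
      exact (hμ a).1
    · intro h
      refine ⟨q U, ?_⟩
      rw [hUp]
      exact (hU (q U)).unique (hμ (q U)) ⟨h, fun A _ => Iff.rfl⟩

/-- The canonical nests of a semiorder are nests of initial and of final segments of one order. -/
theorem semi_iff {r : X → X → Prop} :
    (∀ x y z, r x y → r y z → ∀ w, r x w ∨ r w z) ↔
      ∀ L ∈ range (Lo r), ∀ U ∈ range (Up r), L ∩ U = ∅ ∨ L ∪ U = univ := by
  constructor
  · rintro hs _ ⟨z, rfl⟩ _ ⟨x, rfl⟩
    by_cases hy : ∃ y, r x y ∧ r y z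
    · obtain ⟨y, h1, h2⟩ := hy
      right
      ext w
      simp only [mem_union, mem_univ, iff_true]
      exact (hs x y z h1 h2 w).symm
    · left
      ext y
      simp only [mem_inter_iff, mem_empty_iff_false, iff_false]
      exact fun hc => hy ⟨y, hc.2, hc.1⟩
  · intro hs x y z h1 h2 w
    rcases hs _ ⟨z, rfl⟩ _ ⟨x, rfl⟩ with h3 | h3
    · have : y ∈ Lo r z ∩ Up r x := ⟨h2, h1⟩
      rw [h3] at this
      exact this.elim
    · have : w ∈ Lo r z ∪ Up r x := by rw [h3]; trivial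
      exact this.symm

theorem mem_of_open {g : Set (Set X)} {a b : X} (h : ∀ s ∈ g, a ∈ s → b ∈ s) {V : Set X}
    (hV : TopologicalSpace.GenerateOpen g V) : a ∈ V → b ∈ V := by
  induction hV with
  | basic s hs => exact h s hs
  | univ => exact fun _ => trivial
  | inter s t _ _ ih1 ih2 => exact fun h => ⟨ih1 h.1, ih2 h.2⟩
  | sUnion S _ ih =>
    rintro ⟨s, hs, has⟩
    exact ⟨s, hs, ih s hs has⟩

/-- An interval order which induces a `T₁` topology is a semiorder. -/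
theorem semi_of_t1 {r : X → X → Prop} (h : IsIntervalOrder r) (ht : @T1Space X (inducedTop r)) :
    IsSemiorder r := by
  refine ⟨h, fun x y z h1 h2 w => ?_⟩
  obtain ⟨nL, nU, -⟩ := @linked_of_order X ⟨x⟩ r h
  -- two different points are separated by a subbasic set
  have sep : ∀ a b : X, a ≠ b → ∃ S ∈ range (Lo r) ∪ range (Up r), a ∈ S ∧ b ∉ S := by
    intro a b hab
    by_contra hc
    push Not at hc
    have h3 : IsOpen[inducedTop r] ({b}ᶜ : Set X) :=
      @IsClosed.isOpen_compl X (inducedTop r) _ (@isClosed_singleton X (inducedTop r) ht b)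
    rw [induced_eq] at h3
    exact mem_of_open hc h3 hab rfl
  by_cases hwy : w = y
  · exact Or.inl (hwy ▸ h1)
  obtain ⟨S, hS, hwS, hyS⟩ := sep w y hwy
  rcases hS with hS | hS
  · -- `w` is to the left of `y`
    right
    rcases nL _ hS _ ⟨z, rfl⟩ with h3 | h3
    · exact h3 hwS
    · exact absurd (h3 h2) hyS
  · left
    rcases nU _ hS _ ⟨x, rfl⟩ with h3 | h3
    · exact h3 hwS
    · exact absurd (h3 h1) hyS

/-- **Characterization of the topologies induced by interval orders and by semiorders.** -/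
theorem result (X : Type u) [Nonempty X] (τ : TopologicalSpace X) :
    ((∃ r : X → X → Prop, IsIntervalOrder r ∧ τ = inducedTop r) ↔
      ∃ 𝓛 𝓤 : Set (Set X), τ = TopologicalSpace.generateFrom (𝓛 ∪ 𝓤) ∧ Linked 𝓛 𝓤) ∧
    ((∃ r : X → X → Prop, IsSemiorder r ∧ τ = inducedTop r) ↔
      ∃ 𝓛 𝓤 : Set (Set X), τ = TopologicalSpace.generateFrom (𝓛 ∪ 𝓤) ∧ Linked 𝓛 𝓤 ∧
        ∀ L ∈ 𝓛, ∀ U ∈ 𝓤, L ∩ U = ∅ ∨ L ∪ U = univ) ∧
    (@T1Space X τ → ∀ r : X → X → Prop, IsIntervalOrder r → τ = inducedTop r → IsSemiorder r) := by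
  refine ⟨⟨?_, ?_⟩, ⟨?_, ?_⟩, ?_⟩
  · rintro ⟨r, hr, rfl⟩
    exact ⟨_, _, induced_eq r, linked_of_order hr⟩
  · rintro ⟨𝓛, 𝓤, rfl, hl⟩
    obtain ⟨r, hr, rfl, rfl⟩ := order_of_linked hl
    exact ⟨r, hr, (induced_eq r).symm⟩
  · rintro ⟨r, hr, rfl⟩
    exact ⟨_, _, induced_eq r, linked_of_order hr.1, semi_iff.1 hr.2⟩
  · rintro ⟨𝓛, 𝓤, rfl, hl, hs⟩
    obtain ⟨r, hr, rfl, rfl⟩ := order_of_linked hl
    exact ⟨r, ⟨hr, semi_iff.2 hs⟩, (induced_eq r).symm⟩
  · rintro ht r hr rfl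
    exact semi_of_t1 hr ht

end Pool.Agent.Results.MP_d11cf5_gt.LinkedNests
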